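import Pool.Agent.Helper80_TWC.Stmts

/-!
# Squad TWC, module DGC: digraphs of outdegree at most `d` have chromatic number at most `2 d + 1`
-/

set_option autoImplicit false

open Finset

namespace Pool.Agent.TWC80.H32

theorem dgc_aux {Y : Type} [Fintype Y] [DecidableEq Y] (r : Y → Y → Prop) [DecidableRel r] (d : ℕ)
    (h : ∀ x, (univ.filter (fun y => r x y)).card ≤ d) :
    ∀ (n : ℕ) (s : Finset Y), s.card = n →
      ∃ g : Y → Fin (2 * d + 1), ∀ x ∈ s, ∀ y ∈ s, x ≠ y → r x y → g x ≠ g y := by
  intro n
  induction n with
  | zero =>
    intro s hs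
    rw [Finset.card_eq_zero] at hs
    subst hs
    exact ⟨fun _ => 0, fun x hx => absurd hx (Finset.notMem_empty x)⟩
  | succ n ih =>
    intro s hs
    -- a vertex of small indegree
    have h1 : ∃ x ∈ s, (s.filter (fun y => r y x)).card ≤ d := by
      by_contra hcon
      push Not at hcon
      have hne : s.Nonempty := Finset.card_pos.1 (by omega)
      have h2 : ∑ x ∈ s, (s.filter (fun y => r y x)).card =
          ∑ x ∈ s, (s.filter (fun y => r x y)).card := by
        simp only [Finset.card_filter]
        exact Finset.sum_comm
      have h3 : ∑ x ∈ s, (s.filter (fun y => r x y)).card ≤ ∑ _x ∈ s, d :=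
        Finset.sum_le_sum fun x _ =>
          (Finset.card_le_card (Finset.filter_subset_filter _ (Finset.subset_univ s))).trans (h x)
      have h4 : ∑ _x ∈ s, d < ∑ x ∈ s, (s.filter (fun y => r y x)).card :=
        Finset.sum_lt_sum_of_nonempty hne fun x hx => hcon x hx
      omega
    obtain ⟨x, hx, hd⟩ := h1
    obtain ⟨g, hg⟩ := ih (s.erase x) (by rw [Finset.card_erase_of_mem hx]; omega)
    -- the forbidden colours
    let F : Finset (Fin (2 * d + 1)) :=
      ((s.filter (fun y => r y x)) ∪ (univ.filter (fun y => r x y))).image g
    have hF : F.card ≤ 2 * d := by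
      refine Finset.card_image_le.trans ((Finset.card_union_le _ _).trans ?_)
      have := h x
      omega
    have h5 : ∃ c, c ∉ F := by
      by_contra hcon
      push Not at hcon
      have h6 : (univ : Finset (Fin (2 * d + 1))).card ≤ F.card :=
        Finset.card_le_card fun c _ => hcon c
      rw [Finset.card_univ, Fintype.card_fin] at h6
      omega
    obtain ⟨c, hc⟩ := h5
    refine ⟨Function.update g x c, fun a ha b hb hab hr => ?_⟩
    by_cases hax : a = x
    · subst hax
      rw [Function.update_self, Function.update_of_ne (fun h => hab h.symm)]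
      intro h6
      apply hc
      rw [h6]
      exact Finset.mem_image_of_mem g (Finset.mem_union_right _ (by simpa using hr))
    · by_cases hbx : b = x
      · subst hbx
        rw [Function.update_self, Function.update_of_ne hax]
        intro h6
        apply hc
        rw [← h6]
        exact Finset.mem_image_of_mem g (Finset.mem_union_left _ (by
          rw [Finset.mem_filter]
          exact ⟨ha, hr⟩))
      · rw [Function.update_of_ne hax, Function.update_of_ne hbx]
        exact hg a (Finset.mem_erase.2 ⟨hax, ha⟩) b (Finset.mem_erase.2 ⟨hbx, hb⟩) hab hr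

/-- DGC -/
theorem dgc : DgcStmt := by
  classical
  intro Y _ r d h
  have := Fintype.ofFinite Y
  have h1 : ∀ x, (univ.filter (fun y => r x y)).card ≤ d := by
    intro x
    have h2 := h x
    rwa [Set.ncard_eq_toFinset_card', Set.toFinset_ofPred] at h2
  obtain ⟨g, hg⟩ := dgc_aux r d h1 _ univ rfl
  exact ⟨g, fun x y hxy hr => hg x (mem_univ x) y (mem_univ y) hxy hr⟩

end Pool.Agent.TWC80.H32
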