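import Pool.Agent.Helper80_TWC.Stmts
import Pool.Agent.Helper67_SEP.Hyp
import Pool.Agent.Helper31_SEP.Lef

/-!
# Squad TWC, module HYK: leafy hypergraphs of large chromatic number
-/

set_option autoImplicit false

open Finset

namespace Pool.Agent.TWC80.H32

open Pool.Agent.SEP60 Pool.Agent.SEP60.H67

section count

variable {n N m r : ℕ}

/-- the number of constant tuples -/
theorem constr_card (M : ℕ) (hr : 1 ≤ r) (hN : N = r * M) (χ : Fin N → Fin r) :
    M ^ n ≤ (univ.filter (fun t : Fin n → Fin N => ∃ c, ∀ i, χ (t i) = c)).card := by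
  classical
  have h1 : ∃ c : Fin r, M ≤ (univ.filter (fun y : Fin N => χ y = c)).card := by
    by_contra hcon
    push Not at hcon
    have h4 : ∑ c : Fin r, (univ.filter (fun y : Fin N => χ y = c)).card = N := by
      have := Finset.card_eq_sum_card_fiberwise (f := χ) (s := (univ : Finset (Fin N)))
        (t := univ) (fun _ _ => mem_coe.2 (mem_univ _))
      rw [← this]
      simp
    have h5 : ∑ c : Fin r, (univ.filter (fun y : Fin N => χ y = c)).card < ∑ _c : Fin r, M :=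
      Finset.sum_lt_sum_of_nonempty ⟨⟨0, hr⟩, mem_univ _⟩ fun c _ => hcon c
    rw [Finset.sum_const, Finset.card_univ, Fintype.card_fin, smul_eq_mul, h4, ← hN] at h5
    omega
  obtain ⟨c, hc⟩ := h1
  calc M ^ n ≤ (univ.filter (fun y : Fin N => χ y = c)).card ^ n := Nat.pow_le_pow_left hc n
    _ = (Fintype.piFinset (fun _ : Fin n => univ.filter (fun y : Fin N => χ y = c))).card := by
      rw [Fintype.card_piFinset]
      simp
    _ ≤ _ := by
      apply Finset.card_le_card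
      intro t ht
      rw [Fintype.mem_piFinset] at ht
      rw [Finset.mem_filter]
      exact ⟨mem_univ _, c, fun i => (Finset.mem_filter.1 (ht i)).2⟩

/-- the number of constant members of the family -/
noncomputable def ncr (χ : Fin N → Fin r) (e : Fin m → Fin n → Fin N) : ℕ := by
  classical
  exact (univ.filter (fun i => ∃ c, ∀ k, χ (e i k) = c)).card

theorem sum_ncr (M : ℕ) (hr : 1 ≤ r) (hN : N = r * M) (χ : Fin N → Fin r) :
    ∑ e : Fin m → Fin n → Fin N, ((1 / 2 : ℝ)) ^ (ncr χ e) ≤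
      ((N : ℝ) ^ n * (1 - (1 / r) ^ n / 2)) ^ m := by
  classical
  have h1 : ∀ e : Fin m → Fin n → Fin N, ((1 / 2 : ℝ)) ^ (ncr χ e) =
      ∏ i, (if ∃ c, ∀ k, χ (e i k) = c then (1 / 2 : ℝ) else 1) := by
    intro e
    rw [ncr, Finset.prod_ite, Finset.prod_const, Finset.prod_const_one, mul_one]
  rw [Finset.sum_congr rfl (fun e _ => h1 e)]
  have h2 : ∑ e : Fin m → Fin n → Fin N,
      ∏ i, (if ∃ c, ∀ k, χ (e i k) = c then (1 / 2 : ℝ) else 1) =
      (∑ t : Fin n → Fin N, (if ∃ c, ∀ k, χ (t k) = c then (1 / 2 : ℝ) else 1)) ^ m := by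
    rw [Finset.sum_pow']
    simp
  rw [h2]
  apply pow_le_pow_left₀
  · apply Finset.sum_nonneg
    intro t _
    split_ifs <;> norm_num
  rw [Finset.sum_ite, Finset.sum_const, Finset.sum_const, nsmul_eq_mul, nsmul_eq_mul, mul_one]
  have h3 := constr_card (n := n) M hr hN χ
  have h4 := Finset.card_filter_add_card_filter_not (s := (univ : Finset (Fin n → Fin N)))
    (fun t : Fin n → Fin N => ∃ c, ∀ i, χ (t i) = c)
  have h5 : (univ : Finset (Fin n → Fin N)).card = N ^ n := by simp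
  rw [h5] at h4
  have h6 : ((univ.filter (fun t : Fin n → Fin N => ∃ c, ∀ i, χ (t i) = c)).card : ℝ) +
      ((univ.filter (fun t : Fin n → Fin N => ¬ ∃ c, ∀ i, χ (t i) = c)).card : ℝ) =
      (N : ℝ) ^ n := by
    exact_mod_cast h4
  have h7 : (M : ℝ) ^ n ≤ ((univ.filter (fun t : Fin n → Fin N => ∃ c, ∀ i, χ (t i) = c)).card : ℝ)
      := by
    exact_mod_cast h3
  have hr0 : (0 : ℝ) < r := by exact_mod_cast hr
  have h8 : (N : ℝ) ^ n * ((1 / r) ^ n / 2) = (M : ℝ) ^ n / 2 := by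
    rw [hN]
    push_cast
    rw [mul_pow, div_pow, one_pow]
    field_simp
  have h9 : (N : ℝ) ^ n * (1 - (1 / r) ^ n / 2) = (N : ℝ) ^ n - (M : ℝ) ^ n / 2 := by
    rw [mul_sub, h8, mul_one]
  rw [h9]
  linarith

/-- the good family exists -/
theorem exists_family_r (n L r : ℕ) (hn : 2 ≤ n) (hr : 1 ≤ r) :
    ∃ (N m z : ℕ) (e : Fin m → Fin n → Fin N),
    (bd L e).card ≤ z ∧ ∀ χ : Fin N → Fin r, z < ncr χ e := by
  classical
  have hr0 : (0 : ℝ) < r := by exact_mod_cast hr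
  have hr1 : (1 / r : ℝ) ≤ 1 := by
    rw [div_le_one hr0]
    exact_mod_cast hr
  have hrn : (0 : ℝ) < (1 / r) ^ n := by positivity
  have hrn1 : ((1 / r : ℝ)) ^ n ≤ 1 := pow_le_one₀ (by positivity) hr1
  -- the number `K`
  have hq0 : (0 : ℝ) < 1 - (1 / r) ^ n / 2 := by linarith
  have hq1 : (1 - (1 / r) ^ n / 2 : ℝ) < 1 := by linarith
  obtain ⟨K, hK⟩ := exists_pow_lt_of_lt_one (show (0 : ℝ) < 1 / (2 * r) by positivity) hq1
  set D : ℕ := ((n - 1) * L) ^ (n * L) * ∑ j ∈ Finset.Icc 1 L, K ^ j with hD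
  set z : ℕ := 2 * D + 1 with hz
  set M : ℕ := z + 2 with hM
  set N : ℕ := r * M with hN
  set m : ℕ := K * N with hm
  have hNM : M ≤ N := by
    rw [hN]
    exact Nat.le_mul_of_pos_left M hr
  have hN1 : 1 ≤ N := by omega
  have hN' : (0 : ℝ) < (N : ℝ) ^ (n * m) := by
    have : (0 : ℝ) < N := by exact_mod_cast hN1
    positivity
  -- the two sums
  have h1 := sum_bd (n := n) (N := N) (m := m) L K hn hN1 hm
  have h2 : ∀ χ : Fin N → Fin r, ∑ e : Fin m → Fin n → Fin N, (2 : ℝ) ^ z * (1 / 2) ^ (ncr χ e) ≤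
      (2 : ℝ) ^ z * ((N : ℝ) ^ (n * m) * (1 / (2 * r)) ^ N) := by
    intro χ
    rw [← Finset.mul_sum]
    apply mul_le_mul_of_nonneg_left _ (by positivity)
    refine (sum_ncr M hr hN χ).trans ?_
    rw [mul_pow, ← pow_mul]
    apply mul_le_mul_of_nonneg_left _ hN'.le
    rw [hm, pow_mul]
    exact pow_le_pow_left₀ (by positivity) hK.le _
  have h3 : ∑ e : Fin m → Fin n → Fin N, (((bd L e).card : ℝ) / z +
      ∑ χ : Fin N → Fin r, (2 : ℝ) ^ z * (1 / 2) ^ (ncr χ e)) <
      ∑ _e : Fin m → Fin n → Fin N, (1 : ℝ) := by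
    rw [Finset.sum_add_distrib, ← Finset.sum_div, Finset.sum_comm]
    have h4 : ∑ χ : Fin N → Fin r, ∑ e : Fin m → Fin n → Fin N,
        (2 : ℝ) ^ z * (1 / 2) ^ (ncr χ e) ≤
        (r : ℝ) ^ N * ((2 : ℝ) ^ z * ((N : ℝ) ^ (n * m) * (1 / (2 * r)) ^ N)) := by
      refine (Finset.sum_le_sum (fun χ _ => h2 χ)).trans ?_
      rw [Finset.sum_const, nsmul_eq_mul]
      simp
    have h5 : (r : ℝ) ^ N * ((2 : ℝ) ^ z * ((N : ℝ) ^ (n * m) * (1 / (2 * r)) ^ N)) ≤
        (N : ℝ) ^ (n * m) * (1 / 4) := by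
      have h6 : (r : ℝ) ^ N * (2 : ℝ) ^ z * (1 / (2 * r)) ^ N ≤ 1 / 4 := by
        have h8 : (r : ℝ) ^ N * (2 : ℝ) ^ z * (1 / (2 * r)) ^ N = 2 ^ z / 2 ^ N := by
          rw [div_pow, one_pow, mul_pow]
          field_simp
        rw [h8, div_le_iff₀ (by positivity)]
        have h9 : (2 : ℝ) ^ (z + 2) ≤ 2 ^ N := pow_le_pow_right₀ (by norm_num) hNM
        rw [pow_add] at h9
        linarith
      calc _ = (N : ℝ) ^ (n * m) * ((r : ℝ) ^ N * (2 : ℝ) ^ z * (1 / (2 * r)) ^ N) := by ring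
        _ ≤ _ := mul_le_mul_of_nonneg_left h6 hN'.le
    have h12 : (∑ e : Fin m → Fin n → Fin N, ((bd L e).card : ℝ)) / z ≤
        (N : ℝ) ^ (n * m) * (1 / 2) := by
      have hz0 : (0 : ℝ) < z := by
        rw [hz]
        positivity
      rw [div_le_iff₀ hz0]
      refine h1.trans ?_
      have h13 : ((((n - 1) * L) ^ (n * L) : ℕ) : ℝ) * ∑ j ∈ Finset.Icc 1 L, (K : ℝ) ^ j = D := by
        rw [hD]
        push_cast
        rfl
      rw [h13]
      have h14 : (z : ℝ) = 2 * D + 1 := by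
        rw [hz]
        push_cast
        ring
      rw [h14, mul_assoc]
      apply mul_le_mul_of_nonneg_left _ hN'.le
      linarith
    have h15 : ∑ _e : Fin m → Fin n → Fin N, (1 : ℝ) = (N : ℝ) ^ (n * m) := by
      rw [Finset.sum_const, nsmul_eq_mul, mul_one]
      simp [pow_mul]
    rw [h15]
    linarith
  obtain ⟨e, _, he⟩ := Finset.exists_lt_of_sum_lt h3
  have h4 : 0 ≤ ((bd L e).card : ℝ) / z := by positivity
  have h5 : ∀ χ : Fin N → Fin r, 0 ≤ (2 : ℝ) ^ z * (1 / 2) ^ (ncr χ e) := fun χ => by positivity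
  refine ⟨N, m, z, e, ?_, ?_⟩
  · have h6 : ((bd L e).card : ℝ) / z < 1 := by
      have := Finset.sum_nonneg (fun χ (_ : χ ∈ (univ : Finset (Fin N → Fin r))) => h5 χ)
      linarith
    have hz0 : (0 : ℝ) < z := by
      rw [hz]
      positivity
    rw [div_lt_one hz0] at h6
    exact_mod_cast h6.le
  · intro χ
    have h6 : (2 : ℝ) ^ z * (1 / 2) ^ (ncr χ e) < 1 := by
      have := Finset.single_le_sum (fun χ (_ : χ ∈ (univ : Finset (Fin N → Fin r))) => h5 χ)
        (mem_univ χ)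
      linarith
    by_contra hcon
    push Not at hcon
    have h7 : (1 : ℝ) ≤ (2 : ℝ) ^ z * (1 / 2) ^ (ncr χ e) := by
      rw [one_div, inv_pow, ← div_eq_mul_inv, le_div_iff₀ (by positivity), one_mul]
      exact pow_le_pow_right₀ (by norm_num) hcon
    linarith

end count

/-- sparse hypergraphs of chromatic number larger than `r` -/
theorem hyp_r (n L r : ℕ) (hn : 2 ≤ n) (hr : 1 ≤ r) :
    ∃ (Y E : Type) (_ : Finite Y) (_ : Finite E) (inc : E → Fin n → Y),
      Sparse L inc ∧ ∀ χ : Y → Fin r, ∃ e c, ∀ i, χ (inc e i) = c := by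
  classical
  obtain ⟨N, m, z, e, h1, h2⟩ := exists_family_r n L r hn hr
  -- one element of every bad set
  let pick : Finset (Fin m) → Finset (Fin m) := fun J =>
    if h : J.Nonempty then {h.choose} else ∅
  let Z : Finset (Fin m) := (bd L e).biUnion pick
  have hZ : Z.card ≤ z := by
    refine (Finset.card_biUnion_le_card_mul _ _ 1 ?_).trans ?_
    · intro J _
      simp only [pick]
      split_ifs <;> simp
    · rw [mul_one]
      exact h1
  refine ⟨Fin N, {i : Fin m // i ∉ Z}, inferInstance, inferInstance, fun i => e i.1, ?_, ?_⟩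
  · intro D hD hDL
    let J : Finset (Fin m) := D.toFinset.image Subtype.val
    have hJ : J.card = D.ncard := by
      rw [Finset.card_image_of_injective _ Subtype.val_injective, Set.ncard_eq_toFinset_card']
    have hJ1 : 1 ≤ J.card := by
      rw [hJ]
      exact (Set.ncard_pos (Set.toFinite D)).2 hD
    have hun : {y | ∃ i ∈ D, ∃ k, e i.1 k = y}.ncard = (un J e).card := by
      have h3 : {y | ∃ i ∈ D, ∃ k, e i.1 k = y} = ((un J e : Finset (Fin N)) : Set (Fin N)) := by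
        ext y
        simp only [Set.mem_ofPred_eq, Finset.mem_coe, un, Finset.mem_biUnion, J,
          Finset.mem_image, Set.mem_toFinset, Finset.mem_univ, true_and]
        constructor
        · rintro ⟨i, hi, k, hk⟩
          exact ⟨i.1, ⟨i, hi, rfl⟩, k, hk⟩
        · rintro ⟨a, ⟨i, hi, rfl⟩, k, hk⟩
          exact ⟨i, hi, k, hk⟩
      rw [h3, Set.ncard_coe_finset]
    show (n - 1) * D.ncard + 1 ≤ {y | ∃ i ∈ D, ∃ k, e i.1 k = y}.ncard
    rw [hun, ← hJ]
    by_contra hcon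
    have h3 : J ∈ bd L e := by
      rw [bd, Finset.mem_filter]
      exact ⟨mem_univ _, ⟨hJ1, by rw [hJ]; exact hDL⟩, by omega⟩
    have hne : J.Nonempty := Finset.card_pos.1 hJ1
    have h4 : hne.choose ∈ Z := by
      rw [Finset.mem_biUnion]
      refine ⟨J, h3, ?_⟩
      simp only [pick]
      rw [dif_pos hne]
      exact Finset.mem_singleton_self _
    have h5 : hne.choose ∈ J := hne.choose_spec
    rw [Finset.mem_image] at h5
    obtain ⟨i, _, hi⟩ := h5
    exact i.2 (hi ▸ h4)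
  · intro χ
    have h3 := h2 χ
    have h4 : ∃ i ∈ univ.filter (fun i => ∃ c, ∀ k, χ (e i k) = c), i ∉ Z := by
      by_contra hcon
      push Not at hcon
      have h5 := Finset.card_le_card (show univ.filter (fun i => ∃ c, ∀ k, χ (e i k) = c) ⊆ Z from
        fun i hi => hcon i hi)
      rw [ncr] at h3
      omega
    obtain ⟨i, hi, hiZ⟩ := h4
    rw [Finset.mem_filter] at hi
    obtain ⟨c, hc⟩ := hi.2
    exact ⟨⟨i, hiZ⟩, c, hc⟩

/-- HYK -/
theorem hyk : HykStmt := by
  classical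
  intro I C _ _ _ L hI hL
  have hr : 1 ≤ Nat.card C := Nat.card_pos
  obtain ⟨Y, E, hY, hE, inc, h1, h2⟩ := hyp_r (Nat.card I) L (Nat.card C) hI hr
  have h3 := Pool.Agent.SEP60.H31.lef (Nat.card I) L Y E inc hI hL h1
  refine ⟨Y, E, hY, hE, fun e i => inc e (Finite.equivFin I i), ?_, ?_, ?_⟩
  · intro e i j hij
    exact (Finite.equivFin I).injective (h3.1 e hij)
  · intro D hD hDL
    obtain ⟨e₀, he₀⟩ := hD
    obtain ⟨e, he, h4⟩ := h3.2 (inc e₀ ⟨0, by omega⟩) D ⟨e₀, he₀⟩ hDL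
    refine ⟨e, he, fun i j hi hj => ?_⟩
    apply (Finite.equivFin I).injective
    apply h4
    · obtain ⟨e', he', hne, l, hl⟩ := hi
      exact Or.inr ⟨e', he', hne, _, hl⟩
    · obtain ⟨e', he', hne, l, hl⟩ := hj
      exact Or.inr ⟨e', he', hne, _, hl⟩
  · intro χ
    obtain ⟨e, c, hc⟩ := h2 (fun y => Finite.equivFin C (χ y))
    refine ⟨e, (Finite.equivFin C).symm c, fun i => ?_⟩
    rw [Equiv.eq_symm_apply]
    exact hc _

end Pool.Agent.TWC80.H32
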